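import Pool.Agent.H69.LQ.Lib

/-!
# MP_8f7db2_an, theorem LQ: row BV
-/

set_option autoImplicit false

open MeasureTheory Metric Set
open scoped ENNReal
open Pool.Agent.H85.LK (E adm lam Ann)
open Pool.Agent.H69.LQ

namespace Pool.Agent.H66.LQ

theorem dd_near (hPH : T_PH) {N : ℕ} {L : ℝ} (hN : 2 ≤ N) (n : ℕ) (hp : 0 < ph N L n 1)
    {v : ℝ} (hv : dph N L n 1 = v * ph N L n 1) {s : ℝ} (hs : 0 < s) :
    ∃ δ₀ : ℝ, 0 < δ₀ ∧ ∀ δ, 0 < δ → δ ≤ δ₀ → v - s ≤ dd N L n (1 + δ / 2) (1 - δ) := by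
  obtain ⟨-, h2, -⟩ := hPH N L hN
  have hc1 : Continuous (ph N L n) := (h2 n).1.continuous
  have hc2 : Continuous (dph N L n) := (h2 n).2.continuous
  have hcont : ContinuousAt (fun δ : ℝ => dd N L n (1 + δ / 2) (1 - δ)) 0 := by
    unfold dd
    refine ContinuousAt.mul (by fun_prop) (ContinuousAt.div ?_ ?_ ?_)
    · refine ContinuousAt.mul (by fun_prop) ?_
      exact (hc2.comp (by fun_prop : Continuous fun δ : ℝ => (1 + δ / 2) * (1 - δ))).continuousAt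
    · exact (hc1.comp (by fun_prop : Continuous fun δ : ℝ => (1 + δ / 2) * (1 - δ))).continuousAt
    · have : ((1 : ℝ) + 0 / 2) * (1 - 0) = 1 := by norm_num
      rw [this]
      exact hp.ne'
  have hval : dd N L n (1 + (0 : ℝ) / 2) (1 - 0) = v := by
    unfold dd
    have h3 : (1 : ℝ) + 0 / 2 = 1 := by norm_num
    have h4 : (1 : ℝ) - 0 = 1 := by norm_num
    rw [h3, h4, one_pow, one_mul, one_mul, one_mul, hv, mul_div_cancel_right₀ _ hp.ne']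
  rw [Metric.continuousAt_iff] at hcont
  obtain ⟨δ₁, hδ₁, h⟩ := hcont s hs
  refine ⟨δ₁ / 2, by positivity, fun δ hδ hδ' => ?_⟩
  have h5 : dist δ 0 < δ₁ := by
    rw [Real.dist_eq, sub_zero, abs_of_pos hδ]
    linarith
  have h6 := h h5
  rw [Real.dist_eq, hval] at h6
  have h7 := (abs_lt.1 h6).1
  linarith

theorem pf_BV (hPH : T_PH) (hPV : T_PV) : T_BV := by
  intro N L hN hF s hs
  obtain ⟨-, -, -, hpos, h2, h3, -⟩ := hPV N L hN hF
  obtain ⟨p2, p3⟩ := hpos 1 one_pos le_rfl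
  obtain ⟨δ₂, hδ₂, k2⟩ := dd_near hPH hN 2 p2 h2 hs
  obtain ⟨δ₃, hδ₃, k3⟩ := dd_near hPH hN 3 p3 h3 hs
  refine ⟨min δ₂ δ₃, lt_min hδ₂ hδ₃, fun δ hδ hδ' => ⟨?_, ?_⟩⟩
  · exact k2 δ hδ (hδ'.trans (min_le_left _ _))
  · exact k3 δ hδ (hδ'.trans (min_le_right _ _))

end Pool.Agent.H66.LQ
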